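import Pool.Agent.H40.ISH.Stmts2

/-!
Project ISH, module ESL: the energy of the flat configuration at height `k`.
-/

set_option linter.unusedVariables false

namespace Pool.ISH

open MeasureTheory Filter Topology
open scoped Classical Pointwise

theorem esl_Sl (N k : ℕ) (hk : k ≤ N) : Sl N k =
    Finset.Icc (![-(N : ℤ), -(N : ℤ), -(N : ℤ)] : Site) (![(N : ℤ), (N : ℤ), (k : ℤ)] : Site) := by
  ext x
  simp only [Sl, Finset.mem_filter, mem_Vb, Finset.mem_Icc, Pi.le_def, Fin.forall_fin_succ, abs_le]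
  simp
  have : (k : ℤ) ≤ N := by exact_mod_cast hk
  constructor
  · rintro ⟨h1, h2⟩
    refine ⟨?_, ?_⟩ <;> omega
  · rintro ⟨h1, h2⟩
    refine ⟨?_, ?_⟩ <;> omega

theorem esl_card (N k : ℕ) (hk : k ≤ N) : (Sl N k).card = (N + 1 + k) * (2 * N + 1) ^ 2 := by
  rw [esl_Sl N k hk, Pi.card_Icc]
  simp only [Int.card_Icc, Fin.prod_univ_succ]
  simp
  have h1 : ((N : ℤ) + 1 + N).toNat = 2 * N + 1 := by omega
  have h2 : ((k : ℤ) + 1 + N).toNat = N + 1 + k := by omega
  rw [h1, h2]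
  ring

/-- the sites of a rectangle in the box -/
noncomputable def eslR (a b c d e f : ℤ) : Finset Site :=
  Finset.Icc (![a, c, e] : Site) (![b, d, f] : Site)

theorem esl_mem {a b c d e f : ℤ} {x : Site} : x ∈ eslR a b c d e f ↔
    (a ≤ x 0 ∧ x 0 ≤ b) ∧ (c ≤ x 1 ∧ x 1 ≤ d) ∧ (e ≤ x 2 ∧ x 2 ≤ f) := by
  simp only [eslR, Finset.mem_Icc, Pi.le_def, Fin.forall_fin_succ]
  simp
  tauto

theorem esl_cardR (a b c d e f : ℤ) : (eslR a b c d e f).card =
    (b + 1 - a).toNat * (d + 1 - c).toNat * (f + 1 - e).toNat := by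
  unfold eslR
  rw [Pi.card_Icc]
  simp only [Int.card_Icc, Fin.prod_univ_succ]
  simp
  ring

theorem esl : ESLStmt := by
  intro N k hk
  refine ⟨?_, esl_card N k hk⟩
  have hkZ : (k : ℤ) ≤ N := by exact_mod_cast hk
  -- the broken bonds
  set T : Finset Bond :=
    ((eslR (-N) N (-N) N k k).image (fun x => ((x, 2) : Bond))) ∪
    (((eslR (-N - 1) (-N - 1) (-N) N 1 k).image (fun x => ((x, 0) : Bond))) ∪
    (((eslR N N (-N) N 1 k).image (fun x => ((x, 0) : Bond))) ∪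
    (((eslR (-N) N (-N - 1) (-N - 1) 1 k).image (fun x => ((x, 1) : Bond))) ∪
    ((eslR (-N) N N N 1 k).image (fun x => ((x, 1) : Bond)))))) with hT
  have hsub : (BV N).filter (fun b => b ∈ bd (Pl N (Sl N k))) ⊆ T := by
    rintro ⟨x, i⟩ hb
    rw [Finset.mem_filter, mem_BV, mem_bd] at hb
    obtain ⟨h1, h2⟩ := hb
    have key : ∀ y : Site, y ∈ Pl N (Sl N k) ↔ (y ∈ Vb N ∧ y 2 ≤ k) ∨ (y ∉ Vb N ∧ y 2 ≤ 0) := by
      intro y
      simp only [Pl, Sl, Set.mem_ofPred_eq, Finset.mem_filter]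
      tauto
    have hVb : ∀ y : Site, y ∈ Vb N ↔ (-(N : ℤ) ≤ y 0 ∧ y 0 ≤ N) ∧ (-(N : ℤ) ≤ y 1 ∧ y 1 ≤ N) ∧
        (-(N : ℤ) ≤ y 2 ∧ y 2 ≤ N) := by
      intro y
      rw [mem_Vb]
      simp only [Fin.forall_fin_succ, abs_le]
      simp
    rw [key, key, hVb, hVb] at h2
    rw [hVb, hVb] at h1
    have himg : ∀ (R : Finset Site) (j : Fin 3), ((x, i) : Bond) ∈ R.image (fun x => ((x, j) : Bond)) ↔
        x ∈ R ∧ i = j := by
      intro R j
      simp only [Finset.mem_image, Prod.mk.injEq]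
      constructor
      · rintro ⟨y, hy, rfl, rfl⟩
        exact ⟨hy, rfl⟩
      · rintro ⟨hy, rfl⟩
        exact ⟨x, hy, rfl, rfl⟩
    rw [hT]
    simp only [Finset.mem_union, himg, esl_mem]
    have e0 : lo ((x, i) : Bond) = x := rfl
    have e1 : ∀ j, hi ((x, i) : Bond) j = x j + ev i j := fun j => rfl
    rw [e0] at h1 h2
    rw [e1, e1, e1] at h1 h2
    fin_cases i
    · have f0 : ev (0 : Fin 3) 0 = 1 := ev_same 0
      have f1 : ev (0 : Fin 3) 1 = 0 := ev_ne (by decide)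
      have f2 : ev (0 : Fin 3) 2 = 0 := ev_ne (by decide)
      simp only [Fin.zero_eta, f0, f1, f2, add_zero] at h1 h2
      simp
      omega
    · have f0 : ev (1 : Fin 3) 0 = 0 := ev_ne (by decide)
      have f1 : ev (1 : Fin 3) 1 = 1 := ev_same 1
      have f2 : ev (1 : Fin 3) 2 = 0 := ev_ne (by decide)
      simp only [Fin.mk_one, f0, f1, f2, add_zero] at h1 h2
      simp
      omega
    · have f0 : ev (2 : Fin 3) 0 = 0 := ev_ne (by decide)
      have f1 : ev (2 : Fin 3) 1 = 0 := ev_ne (by decide)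
      have f2 : ev (2 : Fin 3) 2 = 1 := ev_same 2
      simp only [Fin.reduceFinMk, f0, f1, f2, add_zero] at h1 h2
      simp
      omega
  have hcard : T.card ≤ (2 * N + 1) ^ 2 + 4 * (2 * N + 1) * k := by
    rw [hT]
    have u1 := fun (R : Finset Site) (j : Fin 3) =>
      (Finset.card_image_le (s := R) (f := fun x => ((x, j) : Bond)))
    have c1 := esl_cardR (-N) N (-N) N k k
    have c2 := esl_cardR (-N - 1) (-N - 1) (-N) N 1 k
    have c3 := esl_cardR N N (-N) N 1 k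
    have c4 := esl_cardR (-N) N (-N - 1) (-N - 1) 1 k
    have c5 := esl_cardR (-N) N N N 1 k
    have t1 : ((N : ℤ) + 1 - (-N)).toNat = 2 * N + 1 := by omega
    have t2 : ((k : ℤ) + 1 - k).toNat = 1 := by omega
    have t3 : ((-N - 1 : ℤ) + 1 - (-N - 1)).toNat = 1 := by omega
    have t4 : ((k : ℤ) + 1 - 1).toNat = k := by omega
    have t5 : ((N : ℤ) + 1 - N).toNat = 1 := by omega
    rw [t1, t2] at c1
    rw [t1, t3, t4] at c2
    rw [t1, t5, t4] at c3
    rw [t1, t3, t4] at c4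
    rw [t1, t5, t4] at c5
    refine (Finset.card_union_le _ _).trans ?_
    refine (Nat.add_le_add (u1 _ _) ((Finset.card_union_le _ _).trans (Nat.add_le_add (u1 _ _)
      ((Finset.card_union_le _ _).trans (Nat.add_le_add (u1 _ _)
      ((Finset.card_union_le _ _).trans (Nat.add_le_add (u1 _ _) (u1 _ _)))))))).trans ?_
    rw [c1, c2, c3, c4, c5]
    apply le_of_eq
    ring
  unfold en
  exact (Finset.card_le_card hsub).trans hcard

end Pool.ISH
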