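import Pool.Agent.H40.ISH.Stmts2

/-!
Project ISH, module LGC: the size of the contours in the canonical ensemble.
-/

set_option linter.unusedVariables false

namespace Pool.ISH

open MeasureTheory Filter Topology
open scoped Classical Pointwise

/-- Markov inequality for weighted sums -/
theorem lgc_markov {ι : Type*} (s : Finset ι) (w g : ι → ℝ) (t : ℝ) (hw : ∀ i ∈ s, 0 ≤ w i)
    (hg : ∀ i ∈ s, t ≤ g i) :
    ∑ i ∈ s, w i ≤ Real.exp (-t) * ∑ i ∈ s, w i * Real.exp (g i) := by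
  rw [Finset.mul_sum]
  refine Finset.sum_le_sum fun i hi => ?_
  have h1 : Real.exp (-t) * (w i * Real.exp (g i)) = w i * Real.exp (g i - t) := by
    rw [sub_eq_add_neg, Real.exp_add]
    ring
  rw [h1]
  have h2 : 1 ≤ Real.exp (g i - t) := Real.one_le_exp (by linarith [hg i hi])
  nlinarith [hw i hi]

/-- the logarithm is small -/
theorem lgc_Lg (ε : ℝ) (hε : 0 < ε) : ∀ᶠ N : ℕ in atTop, (Lg N : ℝ) ≤ ε * N := by
  have h1 : Tendsto (fun x : ℝ => Real.log x / x) atTop (𝓝 0) := by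
    have h := Real.tendsto_pow_log_div_mul_add_atTop 1 0 1 one_ne_zero
    simpa using h
  have h2 : Tendsto (fun N : ℕ => Real.log (N : ℝ) / N) atTop (𝓝 0) :=
    h1.comp tendsto_natCast_atTop_atTop
  have h3 : ∀ᶠ N : ℕ in atTop, Real.log (N : ℝ) / N < ε * Real.log 2 / 2 :=
    (tendsto_order.1 h2).2 _ (by have := Real.log_pos one_lt_two; positivity)
  have h4 : ∀ᶠ N : ℕ in atTop, 2 / ε ≤ (N : ℝ) :=
    tendsto_natCast_atTop_atTop.eventually_ge_atTop (2 / ε)
  filter_upwards [h3, h4, eventually_ge_atTop 1] with N hN1 hN2 hN3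
  have hNr : (0 : ℝ) < N := by exact_mod_cast hN3
  have hl2 : 0 < Real.log 2 := Real.log_pos one_lt_two
  have h5 : (Nat.log 2 N : ℝ) ≤ Real.log N / Real.log 2 := by
    rw [le_div_iff₀ hl2, ← Real.log_pow]
    apply Real.log_le_log (by positivity)
    have := Nat.pow_log_le_self 2 (show N ≠ 0 by omega)
    exact_mod_cast this
  rw [div_lt_iff₀ hNr] at hN1
  have h6 : Real.log N / Real.log 2 ≤ ε / 2 * N := by
    rw [div_le_iff₀ hl2]
    linarith
  have h7 : (1 : ℝ) ≤ ε / 2 * N := by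
    have := mul_le_mul_of_nonneg_left hN2 (by positivity : (0 : ℝ) ≤ ε / 2)
    have h8 : ε / 2 * (2 / ε) = 1 := by field_simp
    linarith
  unfold Lg
  push_cast
  linarith

/-- LGC -/
theorem lgc (hC : CLSStmt) (h1 : TYSStmt) (h2 : TY2Stmt) : LGCStmt := by
  intro η hη θ hθ
  obtain ⟨C, hC0, h1⟩ := h1
  obtain ⟨β₂, hC⟩ := hC (η / 2) (by positivity)
  obtain ⟨β₃, h2⟩ := h2 (θ / 2) (by positivity)
  refine ⟨max (max C β₂) (max β₃ (max 1 (2 / η * (C * (6 + η) + 1)))), fun β hβ => ?_⟩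
  have hb1 : C ≤ β := (le_max_left _ _).trans ((le_max_left _ _).trans hβ)
  have hb2 : β₂ ≤ β := (le_max_right _ _).trans ((le_max_left _ _).trans hβ)
  have hb3 : β₃ ≤ β := (le_max_left _ _).trans ((le_max_right _ _).trans hβ)
  have hb4 : 1 ≤ β :=
    (le_max_left _ _).trans ((le_max_right _ _).trans ((le_max_right _ _).trans hβ))
  have hb5 : 2 / η * (C * (6 + η) + 1) ≤ β :=
    (le_max_right _ _).trans ((le_max_right _ _).trans ((le_max_right _ _).trans hβ))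
  have hb6 : C * (6 + η) + 1 ≤ β * η / 2 := by
    have h3 := mul_le_mul_of_nonneg_left hb5 (by positivity : (0 : ℝ) ≤ η / 2)
    have h4 : η / 2 * (2 / η * (C * (6 + η) + 1)) = C * (6 + η) + 1 := by field_simp
    rw [h4] at h3
    linarith
  obtain ⟨N₂, hC⟩ := hC β hb2
  set K : ℝ := 2 / θ * (2 * β * (1 + η / 2) + 1) with hK
  have hK0 : 0 < K := by positivity
  have hev : ∀ᶠ N : ℕ in atTop, (Lg N : ℝ) ≤ 1 / K * N := lgc_Lg (1 / K) (by positivity)
  obtain ⟨N₃, hN₃⟩ := eventually_atTop.1 hev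
  obtain ⟨N₁, hN₁⟩ := eventually_atTop.1
    ((tendsto_natCast_atTop_atTop (R := ℝ)).eventually_ge_atTop (40 / η))
  refine ⟨max (max N₁ N₂) (max N₃ 4), fun N hN b hb0 hb1' m hm hne => ?_⟩
  have hN1 : N₁ ≤ N := (le_max_left _ _).trans ((le_max_left _ _).trans hN)
  have hN2 : N₂ ≤ N := (le_max_right _ _).trans ((le_max_left _ _).trans hN)
  have hN3 : N₃ ≤ N := (le_max_left _ _).trans ((le_max_right _ _).trans hN)
  have hN4 : 4 ≤ N := (le_max_right _ _).trans ((le_max_right _ _).trans hN)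
  have hNr : (4 : ℝ) ≤ N := by exact_mod_cast hN4
  have hCN := hC N hN2 b hb0 hb1' m hm hne
  have h1N := h1 β hb1 N (by omega) ((4 + b + η) * (N : ℝ) ^ 2)
  have h2N := h2 β hb3 N (by omega)
  have hNη : 40 ≤ η * N := by
    have h3 := hN₁ N hN1
    rw [div_le_iff₀ hη] at h3
    linarith
  set Z : ℝ := ZZ β N (Cf N m) with hZdef
  have hZ : 0 ≤ Z := Finset.sum_nonneg fun A _ => (wt_pos β N A).le
  have hL1 : (1 : ℝ) ≤ Lg N := by
    have : 1 ≤ Lg N := by unfold Lg; omega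
    exact_mod_cast this
  have hL2 : K * (Lg N : ℝ) ≤ N := by
    have h3 := hN₃ N hN3
    calc K * (Lg N : ℝ) ≤ K * (1 / K * N) := by gcongr
      _ = N := by field_simp
  -- the two parts
  set S1 := (Vb N).powerset.filter (fun A => (4 + b + η) * (N : ℝ) ^ 2 ≤ (lg N A : ℝ)) with hS1
  set S2 := (Cf N m).filter (fun A => θ * (N : ℝ) ^ 3 < sm N A) with hS2
  have hsub : (Cf N m).filter (fun A => ¬ ((lg N A : ℝ) ≤ (4 + b + η) * (N : ℝ) ^ 2 ∧
    (sm N A : ℝ) ≤ θ * (N : ℝ) ^ 3)) ⊆ S1 ∪ S2 := by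
    intro A hA
    rw [Finset.mem_filter] at hA
    obtain ⟨hA, hnp⟩ := hA
    have hA' := hA
    unfold Cf at hA'
    rw [Finset.mem_filter] at hA'
    rw [Finset.mem_union, hS1, hS2, Finset.mem_filter, Finset.mem_filter]
    by_contra hcon
    push Not at hcon
    exact hnp ⟨(hcon.1 hA'.1).le, hcon.2 hA⟩
  have hN0 : (0 : ℝ) ≤ (N : ℝ) ^ 2 := by positivity
  have hZ1 : ZZ β N S1 ≤ Real.exp (- (N : ℝ) ^ 2) * Z := by
    calc ZZ β N S1 ≤ _ := h1N
      _ ≤ Real.exp (2 * β * (2 * (N : ℝ) + 1) ^ 2 + C * N -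
            (2 * β - C) * ((4 + b + η) * (N : ℝ) ^ 2)) *
          (Real.exp (2 * β * (b + η / 2) * (N : ℝ) ^ 2) * Z) := by gcongr
      _ = Real.exp (2 * β * (2 * (N : ℝ) + 1) ^ 2 + C * N -
            (2 * β - C) * ((4 + b + η) * (N : ℝ) ^ 2) + 2 * β * (b + η / 2) * (N : ℝ) ^ 2) *
              Z := by
          rw [← mul_assoc, ← Real.exp_add]
      _ ≤ Real.exp (- (N : ℝ) ^ 2) * Z := by
          gcongr
          have e1 : 2 * β * (2 * (N : ℝ) + 1) ^ 2 + C * N -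
            (2 * β - C) * ((4 + b + η) * (N : ℝ) ^ 2) + 2 * β * (b + η / 2) * (N : ℝ) ^ 2 =
            - (β * η * (N : ℝ) ^ 2) + β * (8 * N + 2) + C * N + C * (4 + b + η) * (N : ℝ) ^ 2 := by
            ring
          rw [e1]
          have e2 : C * (N : ℝ) ≤ C * (N : ℝ) ^ 2 := by
            apply mul_le_mul_of_nonneg_left _ hC0.le
            nlinarith
          have e3 : C * (4 + b + η) * (N : ℝ) ^ 2 ≤ C * (5 + η) * (N : ℝ) ^ 2 := by
            gcongr
            linarith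
          have e4 : β * (8 * (N : ℝ) + 2) ≤ β * (η * (N : ℝ) ^ 2 / 4) := by
            apply mul_le_mul_of_nonneg_left _ (by linarith)
            nlinarith
          have e5 := mul_le_mul_of_nonneg_right hb6 hN0
          have e6 : 0 ≤ β * η * (N : ℝ) ^ 2 := by positivity
          nlinarith
  have hZ2 : ZZ β N S2 ≤ Real.exp (- (N : ℝ) ^ 2) * Z := by
    have h3 : ZZ β N S2 ≤ Real.exp (- (θ * (N : ℝ) ^ 3 / Lg N)) *
        ∑ A ∈ S2, wt β N A * Real.exp ((sm N A : ℝ) / Lg N) := by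
      refine lgc_markov S2 _ _ _ (fun A _ => (wt_pos β N A).le) fun A hA => ?_
      rw [hS2, Finset.mem_filter] at hA
      gcongr
      exact hA.2.le
    have h4 : ∑ A ∈ S2, wt β N A * Real.exp ((sm N A : ℝ) / Lg N) ≤
        ∑ A ∈ (Vb N).powerset, wt β N A * Real.exp ((sm N A : ℝ) / Lg N) := by
      refine Finset.sum_le_sum_of_subset_of_nonneg
        ((Finset.filter_subset _ _).trans (Finset.filter_subset _ _)) ?_
      exact fun A _ _ => mul_nonneg (wt_pos β N A).le (Real.exp_pos _).le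
    have h5 : K * (N : ℝ) ^ 2 ≤ (N : ℝ) ^ 3 / Lg N := by
      rw [le_div_iff₀ (by linarith)]
      nlinarith [sq_nonneg (N : ℝ)]
    have h6 : θ / 2 * (K * (N : ℝ) ^ 2) = (2 * β * (1 + η / 2) + 1) * (N : ℝ) ^ 2 := by
      rw [hK]
      field_simp
    calc ZZ β N S2 ≤ _ := h3
      _ ≤ Real.exp (- (θ * (N : ℝ) ^ 3 / Lg N)) *
          (Real.exp (θ / 2 * (N : ℝ) ^ 3 / Lg N) *
            (Real.exp (2 * β * (b + η / 2) * (N : ℝ) ^ 2) * Z)) := by
          refine mul_le_mul_of_nonneg_left (h4.trans (h2N.trans ?_)) (Real.exp_pos _).le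
          exact mul_le_mul_of_nonneg_left hCN (Real.exp_pos _).le
      _ = Real.exp (- (θ / 2 * ((N : ℝ) ^ 3 / Lg N)) + 2 * β * (b + η / 2) * (N : ℝ) ^ 2) * Z := by
          rw [← mul_assoc, ← mul_assoc, ← Real.exp_add, ← Real.exp_add]
          congr 2
          ring
      _ ≤ Real.exp (- (N : ℝ) ^ 2) * Z := by
          gcongr
          have h7 : θ / 2 * (K * (N : ℝ) ^ 2) ≤ θ / 2 * ((N : ℝ) ^ 3 / Lg N) := by gcongr
          rw [h6] at h7
          have h8 : 2 * β * (b + η / 2) * (N : ℝ) ^ 2 ≤ 2 * β * (1 + η / 2) * (N : ℝ) ^ 2 := by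
            gcongr
          linarith
  have hexp : Real.exp (- (N : ℝ) ^ 2) ≤ 1 / (2 * N) := by
    rw [Real.exp_neg, one_div]
    apply inv_anti₀ (by positivity)
    have := Real.add_one_le_exp ((N : ℝ) ^ 2)
    nlinarith
  have h3 : ZZ β N ((Cf N m).filter (fun A => ¬ ((lg N A : ℝ) ≤ (4 + b + η) * (N : ℝ) ^ 2 ∧
    (sm N A : ℝ) ≤ θ * (N : ℝ) ^ 3))) ≤ ZZ β N S1 + ZZ β N S2 := by
    unfold ZZ
    refine (Finset.sum_le_sum_of_subset_of_nonneg hsub fun A _ _ => (wt_pos β N A).le).trans ?_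
    rw [← Finset.sum_union_inter]
    have : 0 ≤ ∑ A ∈ S1 ∩ S2, wt β N A := Finset.sum_nonneg fun A _ => (wt_pos β N A).le
    linarith
  have h4 : Real.exp (- (N : ℝ) ^ 2) * Z ≤ 1 / (2 * N) * Z :=
    mul_le_mul_of_nonneg_right hexp hZ
  have h5 : (1 : ℝ) / N = 1 / (2 * N) + 1 / (2 * N) := by
    field_simp
    norm_num
  have h6 : 1 / (2 * (N : ℝ)) * Z + 1 / (2 * (N : ℝ)) * Z = 1 / (N : ℝ) * Z := by
    rw [h5]
    ring
  exact (h3.trans (add_le_add (hZ1.trans h4) (hZ2.trans h4))).trans_eq h6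

end Pool.ISH
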