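import Pool.Agent.H40.ISH.Stmts2

/-!
Project ISH, module SHP: the shape of the interface of a configuration with nearly minimal
contours.
-/

set_option linter.unusedVariables false

namespace Pool.ISH

open MeasureTheory Filter Topology
open scoped Classical Pointwise

/-- SHP -/
theorem shp (hF : FLKStmt) (hH : HDLStmt) (hI : ISWStmt) (hS : STBStmt) : SHPStmt := by
  intro ε hε
  obtain ⟨η₁, hη₁, N₁, hS⟩ := hS ε hε
  refine ⟨min (η₁ / 8) 1, η₁ / 16, by positivity, by positivity, ?_⟩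
  obtain ⟨N₂, hN₂⟩ := eventually_atTop.1
    ((tendsto_natCast_atTop_atTop (R := ℝ)).eventually_ge_atTop (102 / η₁))
  refine ⟨max N₁ (max N₂ 1), fun N hN b hb0 hb1 m hm A hA hlg hsm => ?_⟩
  have hN1 : N₁ ≤ N := (le_max_left _ _).trans hN
  have hN2 : N₂ ≤ N := (le_max_left _ _).trans ((le_max_right _ _).trans hN)
  have hN3 : 1 ≤ N := (le_max_right _ _).trans ((le_max_right _ _).trans hN)
  have hNr : (1 : ℝ) ≤ N := by exact_mod_cast hN3
  have hNη : 102 ≤ η₁ * N := by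
    have h3 := hN₂ N hN2
    rw [div_le_iff₀ hη₁] at h3
    linarith
  unfold Cf at hA
  rw [Finset.mem_filter, Finset.mem_powerset] at hA
  obtain ⟨hAV, hmg⟩ := hA
  obtain ⟨Ψ, hΨ⟩ := hF N
  obtain ⟨hV', hcard, -, -, W, hW, hPl, hbd⟩ := hΨ A hAV
  set A' := Ψ (Lam N A) with hA'
  have hOut : Out N (Dp N A) := by
    intro x hx
    have h1 : x ∈ Pl N A' ↔ x 2 ≤ 0 := by
      simp only [Pl, Set.mem_ofPred_eq]
      tauto
    have h2 : x ∉ (W : Set Site) := fun h => hx (hW h)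
    have h3 : x ∈ Pl N A' ↔ x ∈ Dp N A := by
      rw [hPl, Set.mem_symmDiff]
      tauto
    rw [← h3, h1]
  set D : ℕ := ((Vb N).filter (fun x => x ∈ Dp N A)).card with hD
  have c1 : A'.card ≤ D + W.card := by
    rw [hD]
    refine (Finset.card_le_card ?_).trans (Finset.card_union_le _ _)
    intro x hx
    have hxV := hV' hx
    have h3 : x ∈ Pl N A' := by
      simp only [Pl, Set.mem_ofPred_eq]
      exact Or.inl ⟨hxV, hx⟩
    rw [hPl, Set.mem_symmDiff] at h3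
    rw [Finset.mem_union, Finset.mem_filter]
    rcases h3 with h3 | h3
    · exact Or.inl ⟨hxV, h3.1⟩
    · exact Or.inr h3.1
  have c2 : A.card ≤ sm N A + A'.card := by
    have h3 : A.card ≤ (symmDiff A A').card + A'.card := by
      refine (Finset.card_le_card ?_).trans (Finset.card_union_le _ _)
      intro x hx
      rw [Finset.mem_union, Finset.mem_symmDiff]
      tauto
    omega
  have c3 := hH N (Dp N A) hOut
  rw [← hD] at c3
  have c4 := hI N W hW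
  have c5 : 2 * (A.card : ℤ) = m + (2 * N + 1) ^ 3 := by
    unfold mg at hmg
    rw [card_Vb] at hmg
    push_cast at hmg
    linarith
  -- real versions
  have r1 : (A.card : ℝ) ≤ sm N A + (D + W.card) := by
    have : A.card ≤ sm N A + (D + W.card) := by omega
    exact_mod_cast this
  have r3 : ((2 * N + 1 : ℝ)) ^ 3 + 4 * D ≤
      (2 * N + 1) * (Ec N (Dp N A) : ℝ) + 4 * (N + 1) * (2 * N + 1) ^ 2 := by exact_mod_cast c3
  have r4 : 6 * (W.card : ℝ) ≤ (2 * N + 1) * ((bd (W : Set Site)).ncard : ℝ) := by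
    exact_mod_cast c4
  have r5 : 2 * (A.card : ℝ) = m + (2 * N + 1) ^ 3 := by exact_mod_cast c5
  have r6 : ((bd (W : Set Site)).ncard : ℝ) + (Ec N (Dp N A) : ℝ) = lg N A := by
    exact_mod_cast hbd
  have r7 : b * (N : ℝ) ^ 3 - 2 ≤ m := by
    have := (abs_le.1 hm).1
    linarith
  have hN2' : (0 : ℝ) ≤ (N : ℝ) ^ 2 := by positivity
  have hN3' : (0 : ℝ) ≤ (N : ℝ) ^ 3 := by positivity
  have hNN : (N : ℝ) ≤ (N : ℝ) ^ 2 := by nlinarith
  have hN4 : (1 : ℝ) ≤ (N : ℝ) ^ 2 := by nlinarith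
  have hη1 : min (η₁ / 8) 1 ≤ 1 := min_le_right _ _
  have hη2 : min (η₁ / 8) 1 ≤ η₁ / 8 := min_le_left _ _
  have hη0 : 0 < min (η₁ / 8) 1 := by positivity
  set η := min (η₁ / 8) 1 with hη
  have r8 : (2 * (N : ℝ) + 1) * (lg N A : ℝ) ≤
      (8 + 2 * b + 2 * η) * (N : ℝ) ^ 3 + (4 + b + η) * (N : ℝ) ^ 2 := by
    have := mul_le_mul_of_nonneg_left hlg (by positivity : (0 : ℝ) ≤ 2 * N + 1)
    refine this.trans (le_of_eq ?_)
    ring
  have hWb : 2 * (W.card : ℝ) ≤ (2 * η + η₁ / 4) * (N : ℝ) ^ 3 + 100 * (N : ℝ) ^ 2 := by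
    have e1 : (2 * (N : ℝ) + 1) * (Ec N (Dp N A) : ℝ) =
        (2 * N + 1) * (lg N A : ℝ) - (2 * N + 1) * ((bd (W : Set Site)).ncard : ℝ) := by
      rw [← r6]
      ring
    have e2 : (4 + b + η) * (N : ℝ) ^ 2 ≤ 6 * (N : ℝ) ^ 2 := by
      apply mul_le_mul_of_nonneg_right _ hN2'
      linarith
    have e3 : (2 * (N : ℝ) + 1) ^ 3 = 8 * (N : ℝ) ^ 3 + 12 * (N : ℝ) ^ 2 + 6 * N + 1 := by ring
    have e4 : 4 * ((N : ℝ) + 1) * (2 * N + 1) ^ 2 =
        16 * (N : ℝ) ^ 3 + 32 * (N : ℝ) ^ 2 + 20 * N + 4 := by ring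
    rw [e1, e3, e4] at r3
    rw [e3] at r5
    nlinarith
  refine hS N hN1 b hb0 hb1 (Dp N A) hOut ?_ ?_
  · have h3 : (Ec N (Dp N A) : ℝ) ≤ lg N A := by
      rw [← r6]
      have : (0 : ℝ) ≤ ((bd (W : Set Site)).ncard : ℝ) := Nat.cast_nonneg _
      linarith
    refine h3.trans (hlg.trans ?_)
    apply mul_le_mul_of_nonneg_right _ hN2'
    linarith
  · rw [← hD]
    have e3 : (2 * (N : ℝ) + 1) ^ 3 = 8 * (N : ℝ) ^ 3 + 12 * (N : ℝ) ^ 2 + 6 * N + 1 := by ring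
    rw [e3] at r5
    have e5 : η * (N : ℝ) ^ 3 ≤ η₁ / 8 * (N : ℝ) ^ 3 := mul_le_mul_of_nonneg_right hη2 hN3'
    have e6 : 102 * (N : ℝ) ^ 2 ≤ η₁ * (N : ℝ) ^ 3 := by
      have := mul_le_mul_of_nonneg_right hNη hN2'
      calc 102 * (N : ℝ) ^ 2 ≤ η₁ * N * (N : ℝ) ^ 2 := this
        _ = _ := by ring
    nlinarith

end Pool.ISH
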